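import Pool.Agent.Y173.LG.Flat

/-! The product of the discrete Heisenberg group and a lattice, acting on the product of Minkowski
3-space and a vector space. -/

set_option maxSynthPendingDepth 3
set_option linter.unusedSectionVars false
set_option linter.overlappingInstances false

open scoped Manifold ContDiff Topology
open Set Filter Pool.Agent.Helper831

namespace Pool.Agent.Y173.LG

/-- the vector space `ℝ³ × ℝ^a × ℝ^b` -/
abbrev EE (a b : ℕ) : Type := (ℝ × ℝ × ℝ) × ((Fin a → ℝ) × (Fin b → ℝ))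

/-- the product of the Heisenberg group and the lattice `ℤ^a × ℤ^b` -/
@[ext] structure NT (a b : ℕ) where
  g : Nil
  c : Fin a → ℤ
  d : Fin b → ℤ

variable {a b : ℕ}

namespace NT

instance : Mul (NT a b) := ⟨fun x y => ⟨x.g * y.g, x.c + y.c, x.d + y.d⟩⟩
instance : One (NT a b) := ⟨⟨1, 0, 0⟩⟩
instance : Inv (NT a b) := ⟨fun x => ⟨x.g⁻¹, -x.c, -x.d⟩⟩

@[simp] theorem mul_g (x y : NT a b) : (x * y).g = x.g * y.g := rfl
@[simp] theorem mul_c (x y : NT a b) : (x * y).c = x.c + y.c := rfl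
@[simp] theorem mul_d (x y : NT a b) : (x * y).d = x.d + y.d := rfl
@[simp] theorem one_g : (1 : NT a b).g = 1 := rfl
@[simp] theorem one_c : (1 : NT a b).c = 0 := rfl
@[simp] theorem one_d : (1 : NT a b).d = 0 := rfl
@[simp] theorem inv_g (x : NT a b) : (x⁻¹).g = x.g⁻¹ := rfl
@[simp] theorem inv_c (x : NT a b) : (x⁻¹).c = -x.c := rfl
@[simp] theorem inv_d (x : NT a b) : (x⁻¹).d = -x.d := rfl

theorem ext' {x y : NT a b} (h1 : x.g = y.g) (h2 : x.c = y.c) (h3 : x.d = y.d) : x = y := by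
  cases x; cases y; simp only at h1 h2 h3; subst h1 h2 h3; rfl

instance : Group (NT a b) :=
  Group.ofLeftAxioms
    (fun _ _ _ => ext' (mul_assoc _ _ _) (add_assoc _ _ _) (add_assoc _ _ _))
    (fun _ => ext' (one_mul _) (zero_add _) (zero_add _))
    (fun _ => ext' (inv_mul_cancel _) (neg_add_cancel _) (neg_add_cancel _))

noncomputable instance : MulAction (NT a b) (EE a b) where
  smul x p := (x.g • p.1, (fun i => p.2.1 i + x.c i, fun i => p.2.2 i + x.d i))
  one_smul p := by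
    show ((1 : Nil) • p.1, ((fun i => p.2.1 i + ((0 : ℤ) : ℝ)), (fun i => p.2.2 i + ((0 : ℤ) : ℝ))))
      = p
    rw [one_smul]
    simp
  mul_smul x y p := by
    refine Prod.ext ?_ (Prod.ext ?_ ?_)
    · show (x.g * y.g) • p.1 = x.g • (y.g • p.1)
      rw [mul_smul]
    · funext i
      show p.2.1 i + ((x.c i + y.c i : ℤ) : ℝ) = (p.2.1 i + y.c i) + x.c i
      push_cast
      ring
    · funext i
      show p.2.2 i + ((x.d i + y.d i : ℤ) : ℝ) = (p.2.2 i + y.d i) + x.d i
      push_cast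
      ring

theorem smul_def (x : NT a b) (p : EE a b) :
    x • p = (x.g • p.1, (fun i => p.2.1 i + x.c i, fun i => p.2.2 i + x.d i)) := rfl

/-- the linear part of the Heisenberg action -/
noncomputable def nlin (g : Nil) : (ℝ × ℝ × ℝ) →L[ℝ] (ℝ × ℝ × ℝ) :=
  LinearMap.toContinuousLinearMap
    { toFun := fun u => (u.1 - g.k * u.2.1 - (g.k : ℝ) ^ 2 * u.2.2 / 2, u.2.1 + g.k * u.2.2, u.2.2)
      map_add' := by
        intro a b
        refine Prod.ext ?_ (Prod.ext ?_ ?_) <;> simp <;> ring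
      map_smul' := by
        intro r a
        refine Prod.ext ?_ (Prod.ext ?_ ?_) <;> simp <;> ring }

theorem nlin_apply (g : Nil) (u : ℝ × ℝ × ℝ) :
    nlin g u = (u.1 - g.k * u.2.1 - (g.k : ℝ) ^ 2 * u.2.2 / 2, u.2.1 + g.k * u.2.2, u.2.2) := rfl

noncomputable instance : AffAct (NT a b) (EE a b) where
  lin x := (nlin x.g).prodMap (ContinuousLinearMap.id ℝ _)
  smul_eq x p := by
    refine Prod.ext ?_ (Prod.ext ?_ ?_)
    · show x.g • p.1 = nlin x.g p.1 + x.g • (0 : ℝ × ℝ × ℝ)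
      rw [nlin_apply, Nil.smul_def, Nil.smul_def]
      refine Prod.ext ?_ (Prod.ext ?_ ?_)
      · simp only [Prod.fst_add, Prod.fst_zero, Prod.snd_zero, mul_zero]
        ring
      · simp only [Prod.fst_add, Prod.snd_add, Prod.fst_zero, Prod.snd_zero, mul_zero]
        ring
      · simp only [Prod.snd_add, Prod.snd_zero]
        ring
    · funext i
      show p.2.1 i + (x.c i : ℝ) = p.2.1 i + ((0 : ℝ) + x.c i)
      ring
    · funext i
      show p.2.2 i + (x.d i : ℝ) = p.2.2 i + ((0 : ℝ) + x.d i)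
      ring

theorem lin_apply (x : NT a b) (u : EE a b) :
    AffAct.lin (E := EE a b) x u = (nlin x.g u.1, u.2) := rfl

instance : IsCancelSMul (NT a b) (EE a b) where
  right_cancel' x y p hp := by
    have h1 : x.g • p.1 = y.g • p.1 := congrArg Prod.fst hp
    refine ext' (IsCancelSMul.right_cancel _ _ _ h1) ?_ ?_
    · funext i
      have h2 : p.2.1 i + (x.c i : ℝ) = p.2.1 i + (y.c i : ℝ) :=
        congrArg (fun q : EE a b => q.2.1 i) hp
      have h4 : (x.c i : ℝ) = y.c i := by linarith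
      exact_mod_cast h4
    · funext i
      have h2 : p.2.2 i + (x.d i : ℝ) = p.2.2 i + (y.d i : ℝ) :=
        congrArg (fun q : EE a b => q.2.2 i) hp
      have h4 : (x.d i : ℝ) = y.d i := by linarith
      exact_mod_cast h4

theorem finite_int {n : ℕ} (R : ℝ) : {c : Fin n → ℤ | ∀ i, |(c i : ℝ)| ≤ R}.Finite := by
  refine (Set.Finite.pi (t := fun _ : Fin n => Set.Icc (-⌈R⌉) ⌈R⌉)
    fun _ => Set.finite_Icc _ _).subset ?_
  intro c hc
  rw [Set.mem_univ_pi]
  intro i
  have h1 : ((|c i| : ℤ) : ℝ) ≤ ⌈R⌉ := by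
    rw [Int.cast_abs]
    exact (hc i).trans (Int.le_ceil R)
  have h2 : |c i| ≤ ⌈R⌉ := by exact_mod_cast h1
  exact abs_le.1 h2

instance : ProperlyDiscontinuousSMul (NT a b) (EE a b) where
  finite_disjoint_inter_image := by
    intro K L hK hL
    have hfin := ProperlyDiscontinuousSMul.finite_disjoint_inter_image (Γ := Nil)
      (hK.image continuous_fst) (hL.image continuous_fst)
    obtain ⟨R, hR⟩ := hK.isBounded.exists_norm_le
    obtain ⟨S, hS⟩ := hL.isBounded.exists_norm_le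
    have hint := finite_int (n := a) (R + S)
    have hint' := finite_int (n := b) (R + S)
    refine ((hfin.prod (hint.prod hint')).image
      (fun q : Nil × ((Fin a → ℤ) × (Fin b → ℤ)) => (⟨q.1, q.2.1, q.2.2⟩ : NT a b))).subset ?_
    rintro x ⟨q, ⟨p, hp, rfl⟩, hq⟩
    refine ⟨(x.g, x.c, x.d), ⟨?_, ?_, ?_⟩, rfl⟩
    · refine ⟨x.g • p.1, ⟨p.1, ⟨p, hp, rfl⟩, rfl⟩, ⟨x • p, hq, rfl⟩⟩
    · intro i
      have h1 := hR p hp
      have h2 := hS _ hq
      have h3 : ‖p.2.1 i‖ ≤ R := (norm_le_pi_norm p.2.1 i).trans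
        ((norm_fst_le p.2).trans ((norm_snd_le p).trans h1))
      have h4 : ‖p.2.1 i + x.c i‖ ≤ S := (norm_le_pi_norm (x • p).2.1 i).trans
        ((norm_fst_le (x • p).2).trans ((norm_snd_le (x • p)).trans h2))
      rw [Real.norm_eq_abs] at h3 h4
      rw [abs_le] at h3 h4 ⊢
      constructor <;> linarith
    · intro i
      have h1 := hR p hp
      have h2 := hS _ hq
      have h3 : ‖p.2.2 i‖ ≤ R := (norm_le_pi_norm p.2.2 i).trans
        ((norm_snd_le p.2).trans ((norm_snd_le p).trans h1))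
      have h4 : ‖p.2.2 i + x.d i‖ ≤ S := (norm_le_pi_norm (x • p).2.2 i).trans
        ((norm_snd_le (x • p).2).trans ((norm_snd_le (x • p)).trans h2))
      rw [Real.norm_eq_abs] at h3 h4
      rw [abs_le] at h3 h4 ⊢
      constructor <;> linarith

end NT

/-- the product of the Heisenberg nilmanifold and a torus -/
abbrev NTMfd (a b : ℕ) : Type := MulAction.orbitRel.Quotient (NT a b) (EE a b)

instance : CompactSpace (NTMfd a b) := by
  have hK : IsCompact ((Set.Icc (0 : ℝ) 1 ×ˢ (Set.Icc (0 : ℝ) 1 ×ˢ Set.Icc (0 : ℝ) 1)) ×ˢ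
      ((Set.univ.pi fun _ : Fin a => Set.Icc (0 : ℝ) 1) ×ˢ
        (Set.univ.pi fun _ : Fin b => Set.Icc (0 : ℝ) 1))) :=
    (isCompact_Icc.prod (isCompact_Icc.prod isCompact_Icc)).prod
      ((isCompact_univ_pi fun _ => isCompact_Icc).prod (isCompact_univ_pi fun _ => isCompact_Icc))
  have h := hK.image (continuous_proj (E := EE a b) (Γ := NT a b))
  have h2 : (proj (NT a b) : EE a b → NTMfd a b) ''
      ((Set.Icc (0 : ℝ) 1 ×ˢ (Set.Icc (0 : ℝ) 1 ×ˢ Set.Icc (0 : ℝ) 1)) ×ˢ
      ((Set.univ.pi fun _ : Fin a => Set.Icc (0 : ℝ) 1) ×ˢ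
        (Set.univ.pi fun _ : Fin b => Set.Icc (0 : ℝ) 1))) = univ := by
    rw [eq_univ_iff_forall]
    intro x
    obtain ⟨p, rfl⟩ := proj_surjective x
    obtain ⟨g, hg⟩ := Nil.exists_cube p.1
    let δ : NT a b := ⟨g, fun i => -⌊p.2.1 i⌋, fun i => -⌊p.2.2 i⌋⟩
    refine ⟨δ • p, ⟨hg, ?_, ?_⟩, proj_smul δ p⟩
    · rw [Set.mem_univ_pi]
      intro i
      have h5 : (δ • p).2.1 i = p.2.1 i - ⌊p.2.1 i⌋ := by
        show p.2.1 i + ((-⌊p.2.1 i⌋ : ℤ) : ℝ) = _
        push_cast
        ring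
      rw [h5]
      exact ⟨by linarith [Int.floor_le (p.2.1 i)], by linarith [Int.lt_floor_add_one (p.2.1 i)]⟩
    · rw [Set.mem_univ_pi]
      intro i
      have h5 : (δ • p).2.2 i = p.2.2 i - ⌊p.2.2 i⌋ := by
        show p.2.2 i + ((-⌊p.2.2 i⌋ : ℤ) : ℝ) = _
        push_cast
        ring
      rw [h5]
      exact ⟨by linarith [Int.floor_le (p.2.2 i)], by linarith [Int.lt_floor_add_one (p.2.2 i)]⟩
  rw [h2] at h
  exact isCompact_univ_iff.1 h

instance : ConnectedSpace (NTMfd a b) := by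
  have h : Function.Surjective (proj (NT a b) : EE a b → NTMfd a b) := proj_surjective
  exact h.connectedSpace continuous_proj

end Pool.Agent.Y173.LG
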