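import Mathlib
import Pool.Agent.Helper831.NilMetric

/-! Flat complete semi-Riemannian metrics on quotients of a vector space by affine maps, and 1-forms
which are affine along all geodesics. -/

set_option maxSynthPendingDepth 3
set_option linter.unusedSectionVars false
set_option linter.overlappingInstances false

open scoped Manifold ContDiff Topology
open Set Filter Pool.Agent.Helper831

namespace Pool.Agent.Y173.LG

/-- the group acts by affine maps -/
class AffAct (Γ : Type*) (E : Type*) [Group Γ] [NormedAddCommGroup E] [NormedSpace ℝ E]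
    [MulAction Γ E] where
  lin : Γ → E →L[ℝ] E
  smul_eq : ∀ (δ : Γ) (y : E), δ • y = lin δ y + δ • (0 : E)

section

variable {E : Type*} [NormedAddCommGroup E] [NormedSpace ℝ E] [FiniteDimensional ℝ E]
variable {Γ : Type*} [Group Γ] [MulAction Γ E] [AffAct Γ E]

theorem hasFDerivAt_smul (δ : Γ) (y : E) :
    HasFDerivAt (fun z : E => δ • z) (AffAct.lin (E := E) δ) y := by
  have h : (fun z : E => δ • z) = fun z => AffAct.lin (E := E) δ z + δ • (0 : E) :=
    funext fun z => AffAct.smul_eq δ z
  rw [h]
  exact (AffAct.lin (E := E) δ).hasFDerivAt.add_const _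

theorem fderiv_smul (δ : Γ) (y : E) :
    fderiv ℝ (fun z : E => δ • z) y = AffAct.lin (E := E) δ := (hasFDerivAt_smul δ y).fderiv

instance : SmoothConst Γ E where
  smooth δ := by
    have h : (fun z : E => δ • z) = fun z => AffAct.lin (E := E) δ z + δ • (0 : E) :=
      funext fun z => AffAct.smul_eq δ z
    rw [h]
    exact (AffAct.lin (E := E) δ).contDiff.add contDiff_const

instance : ContinuousConstSMul Γ E where
  continuous_const_smul g := (SmoothConst.smooth (E := E) g).continuous

end

section

variable {E : Type*} [NormedAddCommGroup E] [NormedSpace ℝ E] [FiniteDimensional ℝ E]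
variable {Γ : Type*} [Group Γ] [MulAction Γ E] [AffAct Γ E] [ProperlyDiscontinuousSMul Γ E]
  [IsCancelSMul Γ E]
variable (B : LinearMap.BilinForm ℝ E) (hsymm : ∀ u w, B u w = B w u)
  (hnd : ∀ u, (∀ w, B u w = 0) → u = 0)
  (hinv : ∀ (δ : Γ) (u w : E), B (AffAct.lin δ u) (AffAct.lin δ w) = B u w)

/-- the flat metric on the quotient -/
noncomputable def flatMetric : SemiRiemannianMetric E (MulAction.orbitRel.Quotient Γ E) :=
  quotMetric (Γ := Γ) (fun _ => B) (fun _ => hsymm) (fun _ => hnd) (fun _ _ => contDiff_const)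
    (by
      intro δ y u w
      rw [fderiv_smul, hinv])

theorem flat_coeff {e : OpenPartialHomeomorph (MulAction.orbitRel.Quotient Γ E) E}
    (he : e ∈ atlas E (MulAction.orbitRel.Quotient Γ E)) (y u w : E) :
    (flatMetric B hsymm hnd hinv).coeff e y u w = B u w :=
  quotMetric_coeff _ _ _ _ _ he y u w

theorem flat_acc {γ : ℝ → MulAction.orbitRel.Quotient Γ E}
    (hγ : (flatMetric B hsymm hnd hinv).IsGeodesic γ)
    {e : OpenPartialHomeomorph (MulAction.orbitRel.Quotient Γ E) E}
    (he : e ∈ atlas E (MulAction.orbitRel.Quotient Γ E)) {t : ℝ}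
    (ht : γ t ∈ e.source) : HasDerivAt (deriv (fun r => e (γ r))) 0 t := by
  have h1 := hasDerivAt_deriv_coord he hγ.1 ht
  have h2 : ∀ w : E, B (deriv (deriv (fun r => e (γ r))) t) w = 0 := by
    intro w
    have h3 := hγ.2 e he t ht w
    simp only [flat_coeff B hsymm hnd hinv he] at h3
    have h4 : HasDerivAt (fun s => B (deriv (fun r => e (γ r)) s) w)
        (B (deriv (deriv (fun r => e (γ r))) t) w) t :=
      (LinearMap.toContinuousLinearMap (B.flip w)).hasFDerivAt.comp_hasDerivAt t h1
    have h8 := h3.unique h4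
    rw [← h8]
    simp
  rw [hnd _ h2] at h1
  exact h1

/-- straight lines project to geodesics -/
theorem flat_line (p v : E) :
    (flatMetric B hsymm hnd hinv).IsGeodesic (fun t : ℝ => proj Γ (p + t • v)) := by
  have hσ : ContDiff ℝ ∞ (fun t : ℝ => p + t • v) := by fun_prop
  refine ⟨contMDiff_proj_comp hσ, ?_⟩
  intro e he t ht w
  obtain ⟨δ, hδ⟩ := chart_proj he ht
  have hcont : ContinuousAt (fun t : ℝ => p + t • v) t := hσ.continuous.continuousAt
  have hev : ∀ᶠ r in 𝓝 t, e (proj Γ (p + r • v)) = δ • (p + r • v) := hcont.eventually hδ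
  have hd' : ∀ r : ℝ, HasDerivAt (fun r : ℝ => δ • (p + r • v)) (AffAct.lin (E := E) δ v) r := by
    intro r
    have h2 : HasDerivAt (fun r : ℝ => p + r • v) v r := by
      simpa using ((hasDerivAt_id r).smul_const v).const_add p
    exact (hasFDerivAt_smul δ _).comp_hasDerivAt r h2
  have hev2 : ∀ᶠ r in 𝓝 t, deriv (fun r => e (proj Γ (p + r • v))) r =
      AffAct.lin (E := E) δ v := by
    filter_upwards [hev.eventually_nhds] with r hr
    have : deriv (fun r => e (proj Γ (p + r • v))) r = deriv (fun r : ℝ => δ • (p + r • v)) r :=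
      Filter.EventuallyEq.deriv_eq hr
    rw [this, (hd' r).deriv]
  simp only [flat_coeff B hsymm hnd hinv he]
  have h3 : HasDerivAt (fun _ : ℝ => B (AffAct.lin (E := E) δ v) w) 0 t := hasDerivAt_const _ _
  have h4 := h3.congr_of_eventuallyEq (f₁ := fun s => B (deriv (fun r =>
      e (proj Γ (p + r • v))) s) w) (by
    filter_upwards [hev2] with r hr
    rw [hr])
  refine h4.congr_deriv ?_
  simp

theorem flat_complete : (flatMetric B hsymm hnd hinv).IsComplete := by
  intro x v
  set e := chartAt E x with he'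
  have he := chart_mem_atlas E x
  have hx : x ∈ e.source := mem_chart_source E x
  set p : E := e x with hp
  obtain ⟨v', hv'⟩ : ∃ v' : E, v' = v := ⟨v, rfl⟩
  have hg := flat_line B hsymm hnd hinv p v'
  have h0 : proj Γ p = x := proj_chart he hx
  refine ⟨fun t : ℝ => proj Γ (p + t • v'), hg, ?_⟩
  -- the initial velocity
  have hb : proj Γ (p + (0 : ℝ) • v') = x := by simpa using h0
  have hs : (fun t : ℝ => proj Γ (p + t • v')) 0 ∈ e.source := by
    show proj Γ (p + (0 : ℝ) • v') ∈ e.source
    rw [hb]
    exact hx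
  have h1 := velocity_eq_cvec he (γ := fun t : ℝ => proj Γ (p + t • v')) (t := 0)
    ((hg.1 0).mdifferentiableAt (by simp)) hs
  have h2 : (fun r : ℝ => e (proj Γ (p + r • v'))) =ᶠ[𝓝 0] fun r => p + r • v' := by
    have hcont : ContinuousAt (fun t : ℝ => p + t • v') 0 := by fun_prop
    have : ∀ᶠ r : ℝ in 𝓝 0, p + r • v' ∈ e.target := by
      apply hcont.eventually_mem
      apply e.open_target.mem_nhds
      show p + (0 : ℝ) • v' ∈ e.target
      rw [zero_smul, add_zero]
      exact e.map_source hx
    filter_upwards [this] with r hr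
    rw [← symm_eq_proj he, e.right_inv hr]
  have h3 : deriv (fun r : ℝ => e (proj Γ (p + r • v'))) 0 = v' := by
    rw [h2.deriv_eq]
    have h4 : HasDerivAt (fun r : ℝ => p + r • v') v' 0 := by
      simpa using ((hasDerivAt_id (0 : ℝ)).smul_const v').const_add p
    exact h4.deriv
  have h5 : e (proj Γ (p + (0 : ℝ) • v')) = p := by rw [hb]
  refine h1.trans ?_
  have h6 : cvec e (e (proj Γ (p + (0 : ℝ) • v')))
      (deriv (fun r : ℝ => e (proj Γ (p + r • v'))) 0) = cvec e p v' := by
    rw [h5, h3]
  refine h6.trans ?_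
  have h7 : e.symm p = x := e.left_inv hx
  obtain ⟨δ, hδ1⟩ := chart_proj he (y := p) (by rw [h0]; exact hx)
  have h8 : δ • p = p := by
    have := hδ1.self_of_nhds
    rw [h0] at this
    exact this.symm
  have h9 : δ = 1 := IsCancelSMul.right_cancel δ 1 p (by rw [h8, one_smul])
  have h10 : (coordVec e p v' : E) = v' := by
    have hsymm' : (e.symm : E → MulAction.orbitRel.Quotient Γ E) = proj Γ := by
      ext1 z
      exact symm_eq_proj he z
    have hch : ∀ᶠ z in 𝓝 p, chartAt E (proj Γ p) (proj Γ z) = (1 : Γ) • z := by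
      rw [h0, ← h9]
      exact hδ1
    have h11 := mfderiv_proj hch v'
    unfold coordVec
    rw [hsymm']
    refine h11.trans ?_
    simp
  exact Bundle.TotalSpace.ext h7 (heq_of_eq (h10.trans hv'))

/-- conservation of energy along the geodesics of a metric -/
theorem energy_const {M : Type*} [TopologicalSpace M] [ChartedSpace E M]
    [IsManifold 𝓘(ℝ, E) ∞ M] (g : SemiRiemannianMetric E M) {γ : ℝ → M}
    (hγ : g.IsGeodesic γ) (t : ℝ) :
    g.form (γ t) (velocity E γ t) (velocity E γ t)
      = g.form (γ 0) (velocity E γ 0) (velocity E γ 0) := by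
  have hd : ∀ t, HasDerivAt
      (fun s => g.form (γ s) (velocity E γ s) (velocity E γ s)) 0 t := by
    intro t
    have he := chart_mem_atlas E (γ t)
    have ht := mem_chart_source E (γ t)
    have h1 := hasDerivAt_energy g he hγ ht
    refine h1.congr_of_eventuallyEq ?_
    have hcont : ContinuousAt γ t := (hγ.1 t).continuousAt
    have : ∀ᶠ r in 𝓝 t, γ r ∈ (chartAt E (γ t)).source :=
      hcont.eventually_mem ((chartAt E (γ t)).open_source.mem_nhds ht)
    filter_upwards [this] with r hr
    have h := velocity_eq_cvec he ((hγ.1 r).mdifferentiableAt (by simp)) hr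
    exact congrArg (fun p : TangentBundle 𝓘(ℝ, E) M => g.form p.1 p.2 p.2) h
  exact is_const_of_deriv_eq_zero (fun t => (hd t).differentiableAt) (fun t => (hd t).deriv) t 0

variable (β ζ : E →L[ℝ] ℝ) (hζ : ∀ (δ : Γ) (u : E), ζ (AffAct.lin δ u) = ζ u)
  (hβ : ∀ (δ : Γ) (u : E), β (AffAct.lin δ u) = β u + ζ (δ • (0 : E)) * ζ u)

/-- the closed invariant 1-form `ζ` -/
noncomputable def zeta : OneForm E (MulAction.orbitRel.Quotient Γ E) :=
  quotForm (Γ := Γ) (fun _ => ζ.toLinearMap) (fun _ => contDiff_const)
    (by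
      intro δ y u
      rw [fderiv_smul]
      exact hζ δ u)

/-- the invariant 1-form `β - ζ(y) ζ` -/
noncomputable def eta : OneForm E (MulAction.orbitRel.Quotient Γ E) :=
  quotForm (Γ := Γ) (fun y => β.toLinearMap - ζ y • ζ.toLinearMap)
    (by
      intro u
      have h : (fun y => (β.toLinearMap - ζ y • ζ.toLinearMap) u) =
          fun y => β u - ζ y * ζ u := by
        funext y
        simp
      rw [h]
      exact contDiff_const.sub (ζ.contDiff.mul contDiff_const))
    (by
      intro δ y u
      rw [fderiv_smul, AffAct.smul_eq δ y]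
      simp only [LinearMap.sub_apply, LinearMap.smul_apply, ContinuousLinearMap.coe_coe,
        smul_eq_mul, map_add]
      rw [hβ, hζ, hζ]
      ring)

theorem zeta_coeff {e : OpenPartialHomeomorph (MulAction.orbitRel.Quotient Γ E) E}
    (he : e ∈ atlas E (MulAction.orbitRel.Quotient Γ E)) (y u : E) :
    (zeta ζ hζ).form (e.symm y) (coordVec e y u) = ζ u :=
  quotForm_coeff _ _ _ he y u

theorem eta_coeff {e : OpenPartialHomeomorph (MulAction.orbitRel.Quotient Γ E) E}
    (he : e ∈ atlas E (MulAction.orbitRel.Quotient Γ E)) (y u : E) :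
    (eta β ζ hζ hβ).form (e.symm y) (coordVec e y u) = β u - ζ y * ζ u := by
  have h := quotForm_coeff (Γ := Γ) (fun y => β.toLinearMap - ζ y • ζ.toLinearMap) (by
      intro u
      have h : (fun y => (β.toLinearMap - ζ y • ζ.toLinearMap) u) =
          fun y => β u - ζ y * ζ u := by
        funext y
        simp
      rw [h]
      exact contDiff_const.sub (ζ.contDiff.mul contDiff_const))
    (by
      intro δ y u
      rw [fderiv_smul, AffAct.smul_eq δ y]
      simp only [LinearMap.sub_apply, LinearMap.smul_apply, ContinuousLinearMap.coe_coe,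
        smul_eq_mul, map_add]
      rw [hβ, hζ, hζ]
      ring) he y u
  refine h.trans ?_
  simp

theorem zeta_const {γ : ℝ → MulAction.orbitRel.Quotient Γ E}
    (hγ : (flatMetric B hsymm hnd hinv).IsGeodesic γ) (t : ℝ) :
    (zeta ζ hζ).form (γ t) (velocity E γ t) = (zeta ζ hζ).form (γ 0) (velocity E γ 0) := by
  have hd : ∀ t, HasDerivAt (fun s => (zeta ζ hζ).form (γ s) (velocity E γ s)) 0 t := by
    intro t
    set e := chartAt E (γ t) with he'
    have he := chart_mem_atlas E (γ t)
    have ht : γ t ∈ e.source := mem_chart_source E (γ t)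
    have h1 := ζ.hasFDerivAt.comp_hasDerivAt t (flat_acc B hsymm hnd hinv hγ he ht)
    rw [map_zero] at h1
    refine h1.congr_of_eventuallyEq ?_
    have hcont : ContinuousAt γ t := (hγ.1 t).continuousAt
    filter_upwards [hcont.eventually_mem (e.open_source.mem_nhds ht)] with r hr
    rw [eval_velocity' (zeta ζ hζ) he ((hγ.1 r).mdifferentiableAt (by simp)) hr,
      zeta_coeff ζ hζ he]
    rfl
  exact is_const_of_deriv_eq_zero (fun t => (hd t).differentiableAt) (fun t => (hd t).deriv) t 0

/-- along each geodesic `η (γ')` is affine with slope `- ζ (γ') ^ 2` -/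
theorem eta_affine {γ : ℝ → MulAction.orbitRel.Quotient Γ E}
    (hγ : (flatMetric B hsymm hnd hinv).IsGeodesic γ) (t : ℝ) :
    (eta β ζ hζ hβ).form (γ t) (velocity E γ t) =
      -((zeta ζ hζ).form (γ 0) (velocity E γ 0)) ^ 2 * t +
        (eta β ζ hζ hβ).form (γ 0) (velocity E γ 0) := by
  have hd : ∀ t, HasDerivAt (fun s => (eta β ζ hζ hβ).form (γ s) (velocity E γ s))
      (-((zeta ζ hζ).form (γ 0) (velocity E γ 0)) ^ 2) t := by
    intro t
    rw [← zeta_const B hsymm hnd hinv ζ hζ hγ t]
    set e := chartAt E (γ t) with he'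
    have he := chart_mem_atlas E (γ t)
    have ht : γ t ∈ e.source := mem_chart_source E (γ t)
    have h0 := flat_acc B hsymm hnd hinv hγ he ht
    have hcd : HasDerivAt (fun r => e (γ r)) (deriv (fun r => e (γ r)) t) t :=
      ((contDiffAt_coord he hγ.1 ht).differentiableAt (by simp)).hasDerivAt
    have h1 := (β.hasFDerivAt.comp_hasDerivAt t h0).sub
      ((ζ.hasFDerivAt.comp_hasDerivAt t hcd).mul (ζ.hasFDerivAt.comp_hasDerivAt t h0))
    have h2 : (zeta ζ hζ).form (γ t) (velocity E γ t) = ζ (deriv (fun r => e (γ r)) t) := by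
      rw [eval_velocity' (zeta ζ hζ) he ((hγ.1 t).mdifferentiableAt (by simp)) ht,
        zeta_coeff ζ hζ he]
    rw [h2]
    have h3 := h1.congr_deriv (g' := -ζ (deriv (fun r => e (γ r)) t) ^ 2) (by
      simp only [map_zero, Function.comp_apply, mul_zero, add_zero]
      ring)
    refine h3.congr_of_eventuallyEq ?_
    have hcont : ContinuousAt γ t := (hγ.1 t).continuousAt
    filter_upwards [hcont.eventually_mem (e.open_source.mem_nhds ht)] with r hr
    rw [eval_velocity' (eta β ζ hζ hβ) he ((hγ.1 r).mdifferentiableAt (by simp)) hr,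
      eta_coeff β ζ hζ hβ he]
    rfl
  set a := (zeta ζ hζ).form (γ 0) (velocity E γ 0) with ha
  have h : ∀ t, HasDerivAt (fun s => (eta β ζ hζ hβ).form (γ s) (velocity E γ s) -
      (-a ^ 2 * s)) 0 t := by
    intro t
    have h1 := (hd t).sub ((hasDerivAt_id t).const_mul (-a ^ 2))
    refine h1.congr_deriv ?_
    simp
  have h2 := is_const_of_deriv_eq_zero (fun t => (h t).differentiableAt)
    (fun t => (h t).deriv) t 0
  simp only [mul_zero, sub_zero] at h2
  linarith

end

end Pool.Agent.Y173.LG
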