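import Pool.Agent.Y173.LG.Act

/-! Closed flat complete manifolds of every indefinite signature in dimension at least `3`, with a
1-form which grows linearly along light-like geodesics. -/

set_option maxSynthPendingDepth 3
set_option linter.unusedSectionVars false
set_option linter.overlappingInstances false

open scoped Manifold ContDiff Topology
open Set Filter Pool.Agent.Helper831

namespace Pool.Agent.Y173.LG

/-- The metric `g` has signature `(p, q)`: the manifold has dimension `p + q`, and each tangent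
space has `p` vectors of square `1` and `q` vectors of square `-1` which are orthogonal. -/
def HasSignature {E : Type*} [NormedAddCommGroup E] [NormedSpace ℝ E]
    {M : Type*} [TopologicalSpace M] [ChartedSpace E M] (g : SemiRiemannianMetric E M)
    (p q : ℕ) : Prop :=
  Module.finrank ℝ E = p + q ∧
  ∀ x : M, ∃ (v : Fin p → TangentSpace 𝓘(ℝ, E) x) (w : Fin q → TangentSpace 𝓘(ℝ, E) x),
    (∀ i j, g.form x (v i) (v j) = if i = j then 1 else 0) ∧
    (∀ i j, g.form x (w i) (w j) = if i = j then -1 else 0) ∧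
    ∀ i j, g.form x (v i) (w j) = 0

variable {a b : ℕ}

/-- the flat form `s (2 dx dz + dy² + ∑ du² - ∑ dw²)` -/
noncomputable def BB (a b : ℕ) (s : ℝ) : LinearMap.BilinForm ℝ (EE a b) :=
  LinearMap.mk₂ ℝ (fun u w => s * (mink u.1 w.1 + ∑ i, u.2.1 i * w.2.1 i - ∑ j, u.2.2 j * w.2.2 j))
    (by
      intro x y z
      simp only [Prod.fst_add, Prod.snd_add, map_add, LinearMap.add_apply, Pi.add_apply, add_mul,
        Finset.sum_add_distrib]
      ring)
    (by
      intro r x y
      simp only [Prod.smul_fst, Prod.smul_snd, map_smul, LinearMap.smul_apply, Pi.smul_apply,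
        smul_eq_mul, mul_assoc, ← Finset.mul_sum]
      ring)
    (by
      intro x y z
      simp only [Prod.fst_add, Prod.snd_add, map_add, Pi.add_apply, mul_add,
        Finset.sum_add_distrib]
      ring)
    (by
      intro r x y
      have h1 : ∀ (n : ℕ) (f g : Fin n → ℝ), ∑ i, f i * (r * g i) = r * ∑ i, f i * g i := by
        intro n f g
        rw [Finset.mul_sum]
        exact Finset.sum_congr rfl fun i _ => by ring
      simp only [Prod.smul_fst, Prod.smul_snd, map_smul, Pi.smul_apply, smul_eq_mul, h1]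
      ring)

theorem BB_apply (s : ℝ) (u w : EE a b) :
    BB a b s u w = s * (mink u.1 w.1 + ∑ i, u.2.1 i * w.2.1 i - ∑ j, u.2.2 j * w.2.2 j) := rfl

theorem BB_symm (s : ℝ) (u w : EE a b) : BB a b s u w = BB a b s w u := by
  rw [BB_apply, BB_apply, mink_symm]
  congr 2
  · congr 1
    exact Finset.sum_congr rfl fun i _ => mul_comm _ _
  · exact Finset.sum_congr rfl fun i _ => mul_comm _ _

theorem BB_nondeg {s : ℝ} (hs : s ≠ 0) (u : EE a b) (h : ∀ w, BB a b s u w = 0) : u = 0 := by
  have h0 : ∀ w : EE a b, mink u.1 w.1 + ∑ i, u.2.1 i * w.2.1 i - ∑ j, u.2.2 j * w.2.2 j = 0 := by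
    intro w
    have := h w
    rw [BB_apply] at this
    exact (mul_eq_zero.1 this).resolve_left hs
  refine Prod.ext ?_ (Prod.ext ?_ ?_)
  · refine mink_nondeg _ fun w => ?_
    have := h0 (w, 0)
    simpa using this
  · funext i
    have := h0 (0, (Pi.single i 1, 0))
    simpa [Pi.single_apply] using this
  · funext j
    have := h0 (0, (0, Pi.single j 1))
    simpa [Pi.single_apply] using this

theorem BB_inv (s : ℝ) (δ : NT a b) (u w : EE a b) :
    BB a b s (AffAct.lin δ u) (AffAct.lin δ w) = BB a b s u w := by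
  rw [BB_apply, BB_apply, NT.lin_apply, NT.lin_apply]
  congr 3
  simp only [NT.nlin_apply, mink_apply]
  ring

/-- the flat metric of signature `(2 + a, 1 + b)`, or `(1 + b, 2 + a)` -/
noncomputable def met (a b : ℕ) {s : ℝ} (hs : s ≠ 0) :
    SemiRiemannianMetric (EE a b) (NTMfd a b) :=
  flatMetric (Γ := NT a b) (BB a b s) (BB_symm s) (BB_nondeg hs) (BB_inv s)

/-- the linear form `dz` -/
noncomputable def zl (a b : ℕ) : EE a b →L[ℝ] ℝ :=
  (ContinuousLinearMap.snd ℝ ℝ ℝ).comp ((ContinuousLinearMap.snd ℝ ℝ (ℝ × ℝ)).comp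
    (ContinuousLinearMap.fst ℝ (ℝ × ℝ × ℝ) ((Fin a → ℝ) × (Fin b → ℝ))))

/-- the linear form `dy` -/
noncomputable def yl (a b : ℕ) : EE a b →L[ℝ] ℝ :=
  (ContinuousLinearMap.fst ℝ ℝ ℝ).comp ((ContinuousLinearMap.snd ℝ ℝ (ℝ × ℝ)).comp
    (ContinuousLinearMap.fst ℝ (ℝ × ℝ × ℝ) ((Fin a → ℝ) × (Fin b → ℝ))))

theorem zl_apply (u : EE a b) : zl a b u = u.1.2.2 := rfl
theorem yl_apply (u : EE a b) : yl a b u = u.1.2.1 := rfl

theorem zl_inv (δ : NT a b) (u : EE a b) : zl a b (AffAct.lin δ u) = zl a b u := rfl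

theorem yl_inv (δ : NT a b) (u : EE a b) :
    yl a b (AffAct.lin δ u) = yl a b u + zl a b (δ • (0 : EE a b)) * zl a b u := by
  have h1 : zl a b (δ • (0 : EE a b)) = δ.g.k := by
    rw [zl_apply, NT.smul_def]
    show (δ.g • (0 : ℝ × ℝ × ℝ)).2.2 = _
    rw [Nil.smul_def]
    simp
  rw [h1, NT.lin_apply, yl_apply, yl_apply, zl_apply, NT.nlin_apply]

theorem finrank_EE : Module.finrank ℝ (EE a b) = 3 + a + b := by
  simp [Module.finrank_prod]
  ring

/-- the vectors of positive square -/
noncomputable def vp (a b : ℕ) : Fin (2 + a) → EE a b :=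
  Fin.append ![((1 / 2, 0, 1), (0, 0)), ((0, 1, 0), (0, 0))] (fun i => (0, (Pi.single i 1, 0)))

/-- the vectors of negative square -/
noncomputable def vm (a b : ℕ) : Fin (1 + b) → EE a b :=
  Fin.append ![((1 / 2, 0, -1), (0, 0))] (fun i => (0, (0, Pi.single i 1)))

theorem vp_vp (i j : Fin (2 + a)) : BB a b 1 (vp a b i) (vp a b j) = if i = j then 1 else 0 := by
  rw [BB_apply]
  refine Fin.addCases (fun i => ?_) (fun i => ?_) i <;>
    refine Fin.addCases (fun j => ?_) (fun j => ?_) j
  · unfold vp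
    rw [Fin.append_left, Fin.append_left]
    fin_cases i <;> fin_cases j <;> simp
    · norm_num
  · have h1 : (Fin.castAdd a i : Fin (2 + a)) ≠ Fin.natAdd 2 j := fun h => by
      have := congrArg Fin.val h
      simp only [Fin.val_castAdd, Fin.val_natAdd] at this
      omega
    unfold vp
    rw [Fin.append_left, Fin.append_right, if_neg h1]
    fin_cases i <;> simp
  · have h1 : (Fin.natAdd 2 i : Fin (2 + a)) ≠ Fin.castAdd a j := fun h => by
      have := congrArg Fin.val h
      simp only [Fin.val_castAdd, Fin.val_natAdd] at this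
      omega
    unfold vp
    rw [Fin.append_left, Fin.append_right, if_neg h1]
    fin_cases j <;> simp
  · unfold vp
    rw [Fin.append_right, Fin.append_right]
    simp [Pi.single_apply, eq_comm]

theorem vm_vm (i j : Fin (1 + b)) : BB a b 1 (vm a b i) (vm a b j) = if i = j then -1 else 0 := by
  rw [BB_apply]
  refine Fin.addCases (fun i => ?_) (fun i => ?_) i <;>
    refine Fin.addCases (fun j => ?_) (fun j => ?_) j
  · unfold vm
    rw [Fin.append_left, Fin.append_left]
    fin_cases i; fin_cases j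
    simp
    norm_num
  · have h1 : (Fin.castAdd b i : Fin (1 + b)) ≠ Fin.natAdd 1 j := fun h => by
      have := congrArg Fin.val h
      simp only [Fin.val_castAdd, Fin.val_natAdd] at this
      omega
    unfold vm
    rw [Fin.append_left, Fin.append_right, if_neg h1]
    fin_cases i; simp
  · have h1 : (Fin.natAdd 1 i : Fin (1 + b)) ≠ Fin.castAdd b j := fun h => by
      have := congrArg Fin.val h
      simp only [Fin.val_castAdd, Fin.val_natAdd] at this
      omega
    unfold vm
    rw [Fin.append_left, Fin.append_right, if_neg h1]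
    fin_cases j; simp
  · unfold vm
    rw [Fin.append_right, Fin.append_right]
    simp [Pi.single_apply, eq_comm]
    split_ifs <;> simp

theorem vp_vm (i : Fin (2 + a)) (j : Fin (1 + b)) : BB a b 1 (vp a b i) (vm a b j) = 0 := by
  rw [BB_apply]
  refine Fin.addCases (fun i => ?_) (fun i => ?_) i <;>
    refine Fin.addCases (fun j => ?_) (fun j => ?_) j
  · unfold vp vm
    rw [Fin.append_left, Fin.append_left]
    fin_cases i <;> fin_cases j <;> simp
  · unfold vp vm
    rw [Fin.append_left, Fin.append_right]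
    fin_cases i <;> simp
  · unfold vp vm
    rw [Fin.append_left, Fin.append_right]
    fin_cases j; simp
  · unfold vp vm
    rw [Fin.append_right, Fin.append_right]
    simp

theorem BB_neg (u w : EE a b) : BB a b (-1) u w = -BB a b 1 u w := by
  rw [BB_apply, BB_apply]
  ring

theorem met_form {s : ℝ} (hs : s ≠ 0) (x : NTMfd a b) (u w : TangentSpace 𝓘(ℝ, EE a b) x) :
    (met a b hs).form x u w = BB a b s u w := rfl

theorem sig_pos : HasSignature (met a b one_ne_zero) (2 + a) (1 + b) := by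
  refine ⟨by rw [finrank_EE]; omega, fun x => ⟨vp a b, vm a b, ?_, ?_, ?_⟩⟩
  · intro i j
    exact vp_vp i j
  · intro i j
    exact vm_vm i j
  · intro i j
    exact vp_vm i j

theorem sig_neg : HasSignature (met a b (neg_ne_zero.2 (one_ne_zero (α := ℝ)))) (1 + b) (2 + a) := by
  refine ⟨by rw [finrank_EE]; omega, fun x => ⟨vm a b, vp a b, ?_, ?_, ?_⟩⟩
  · intro i j
    refine (BB_neg (vm a b i) (vm a b j)).trans ?_
    rw [vm_vm]
    split_ifs <;> simp
  · intro i j
    refine (BB_neg (vp a b i) (vp a b j)).trans ?_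
    rw [vp_vp]
    split_ifs <;> simp
  · intro i j
    refine (BB_neg (vm a b i) (vp a b j)).trans ?_
    rw [BB_symm, vp_vm, neg_zero]

theorem main (a b : ℕ) {s : ℝ} (hs : s ≠ 0) :
    ∃ η ζ : OneForm (EE a b) (NTMfd a b),
      (met a b hs).IsComplete ∧
      (∀ γ : ℝ → NTMfd a b, (met a b hs).IsGeodesic γ → ∀ t : ℝ,
        ζ.form (γ t) (velocity (EE a b) γ t) = ζ.form (γ 0) (velocity (EE a b) γ 0) ∧
        η.form (γ t) (velocity (EE a b) γ t) = -(ζ.form (γ 0) (velocity (EE a b) γ 0)) ^ 2 * t +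
          η.form (γ 0) (velocity (EE a b) γ 0)) ∧
      (∀ x, ∃ v, (met a b hs).form x v v = 0 ∧ ζ.form x v ≠ 0) ∧
      (∀ x, ∃ v, η.form x v ≠ 0) ∧
      ∀ x, ∃ γ : ℝ → NTMfd a b, (met a b hs).IsLightlikeGeodesic γ ∧ γ 0 = x ∧
        ζ.form (γ 0) (velocity (EE a b) γ 0) ≠ 0 := by
  have hcomp : (met a b hs).IsComplete :=
    flat_complete (BB a b s) (BB_symm s) (BB_nondeg hs) (BB_inv s)
  have hnull : ∀ x : NTMfd a b, ∃ v : TangentSpace 𝓘(ℝ, EE a b) x,
      (met a b hs).form x v v = 0 ∧ (zeta (Γ := NT a b) (zl a b) zl_inv).form x v ≠ 0 := by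
    intro x
    refine ⟨(((0, 0, 1), (0, 0)) : EE a b), ?_, ?_⟩
    · rw [met_form]
      show BB a b s ((0, 0, 1), (0, 0)) ((0, 0, 1), (0, 0)) = 0
      rw [BB_apply]
      simp
    · show zl a b ((0, 0, 1), (0, 0)) ≠ 0
      rw [zl_apply]
      exact one_ne_zero
  refine ⟨eta (Γ := NT a b) (yl a b) (zl a b) zl_inv yl_inv, zeta (Γ := NT a b) (zl a b) zl_inv,
    hcomp, fun γ hγ t => ⟨?_, ?_⟩, hnull, ?_, ?_⟩
  · exact zeta_const (BB a b s) (BB_symm s) (BB_nondeg hs) (BB_inv s) (zl a b) zl_inv hγ t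
  · exact eta_affine (BB a b s) (BB_symm s) (BB_nondeg hs) (BB_inv s) (yl a b) (zl a b) zl_inv
      yl_inv hγ t
  · intro x
    refine ⟨(((0, 1, 0), (0, 0)) : EE a b), ?_⟩
    show ((yl a b).toLinearMap - (zl a b) (chartAt (EE a b) x x) • (zl a b).toLinearMap)
      (((0, 1, 0), (0, 0)) : EE a b) ≠ 0
    simp only [LinearMap.sub_apply, LinearMap.smul_apply, ContinuousLinearMap.coe_coe, yl_apply]
    have h1 : zl a b (((0, 1, 0), (0, 0)) : EE a b) = 0 := rfl
    rw [h1]
    simp
  · intro x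
    obtain ⟨v, hv1, hv2⟩ := hnull x
    obtain ⟨γ, hγ, hγ0⟩ := hcomp x v
    have hz : (zeta (Γ := NT a b) (zl a b) zl_inv).form (γ 0) (velocity (EE a b) γ 0) ≠ 0 := by
      have h := congrArg (fun p : TangentBundle 𝓘(ℝ, EE a b) (NTMfd a b) =>
        (zeta (Γ := NT a b) (zl a b) zl_inv).form p.1 p.2) hγ0
      rw [show (zeta (Γ := NT a b) (zl a b) zl_inv).form (γ 0) (velocity (EE a b) γ 0) =
        (zeta (Γ := NT a b) (zl a b) zl_inv).form x v from h]
      exact hv2
    have he : (met a b hs).form (γ 0) (velocity (EE a b) γ 0) (velocity (EE a b) γ 0) = 0 := by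
      have h := congrArg (fun p : TangentBundle 𝓘(ℝ, EE a b) (NTMfd a b) =>
        (met a b hs).form p.1 p.2 p.2) hγ0
      exact h.trans hv1
    refine ⟨γ, ⟨hγ, ?_, fun t => by rw [energy_const (met a b hs) hγ t, he]⟩,
      congrArg (fun p : TangentBundle 𝓘(ℝ, EE a b) (NTMfd a b) => p.1) hγ0, hz⟩
    by_contra hcon
    push Not at hcon
    have hv0 : velocity (EE a b) γ 0 = 0 := by
      have h1 : HasMFDerivAt 𝓘(ℝ, ℝ) 𝓘(ℝ, EE a b) γ 0
          (0 : TangentSpace 𝓘(ℝ, ℝ) (0 : ℝ) →L[ℝ] TangentSpace 𝓘(ℝ, EE a b) (γ 0)) := by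
        have h2 := hasMFDerivAt_const (I := 𝓘(ℝ, ℝ)) (I' := 𝓘(ℝ, EE a b)) (γ 0) (0 : ℝ)
        exact h2.congr_of_eventuallyEq (Filter.Eventually.of_forall fun t => hcon t 0)
      unfold velocity
      rw [h1.mfderiv]
      rfl
    apply hz
    rw [hv0, map_zero]

end Pool.Agent.Y173.LG
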