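import Pool.Agent.Y173.LG.Main
import Pool.Agent.Helper831.SemiOrbit

/-! Almost all orbits of the geodesic flow escape to infinity, in every indefinite signature. -/

set_option maxSynthPendingDepth 3
set_option linter.unusedSectionVars false
set_option linter.overlappingInstances false

open scoped Manifold ContDiff Topology
open Set Filter MeasureTheory Pool.Agent.Helper831

namespace Pool.Agent.Y173.LG

/-- The orbit of the tangent vector `q = v` under the geodesic flow of `g` escapes to infinity in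
`TM` in both time directions: for each compact subset `K` of `TM`, `γ_v'(t)` is outside `K` when
`|t|` is large. -/
def OrbitEscapes {E : Type*} [NormedAddCommGroup E] [NormedSpace ℝ E]
    {M : Type*} [TopologicalSpace M] [ChartedSpace E M] [IsManifold 𝓘(ℝ, E) ∞ M]
    (g : SemiRiemannianMetric E M) (q : TangentBundle 𝓘(ℝ, E) M) : Prop :=
  ∀ γ : ℝ → M, g.IsGeodesic γ → (⟨γ 0, velocity E γ 0⟩ : TangentBundle 𝓘(ℝ, E) M) = q →
    ∀ K : Set (TangentBundle 𝓘(ℝ, E) M), IsCompact K →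
      ∃ T : ℝ, ∀ t : ℝ, T ≤ |t| → (⟨γ t, velocity E γ t⟩ : TangentBundle 𝓘(ℝ, E) M) ∉ K

section

variable {E : Type*} [NormedAddCommGroup E] [NormedSpace ℝ E] [FiniteDimensional ℝ E]
  {M : Type*} [TopologicalSpace M] [ChartedSpace E M] [IsManifold 𝓘(ℝ, E) ∞ M]

/-- an orbit along which a 1-form is affine with nonzero slope escapes -/
theorem escapes_of (g : SemiRiemannianMetric E M) (η ζ : OneForm E M)
    (h : ∀ γ : ℝ → M, g.IsGeodesic γ → ∀ t : ℝ,
      η.form (γ t) (velocity E γ t) = -(ζ.form (γ 0) (velocity E γ 0)) ^ 2 * t +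
        η.form (γ 0) (velocity E γ 0))
    (q : TangentBundle 𝓘(ℝ, E) M) (hq : ζ.form q.1 q.2 ≠ 0) : OrbitEscapes g q := by
  intro γ hγ hγ0 K hK
  have hz : ζ.form (γ 0) (velocity E γ 0) = ζ.form q.1 q.2 :=
    congrArg (fun p : TangentBundle 𝓘(ℝ, E) M => ζ.form p.1 p.2) hγ0
  obtain ⟨C, hC⟩ := hK.exists_bound_of_continuousOn (continuous_oneForm η).continuousOn
  set a := ζ.form (γ 0) (velocity E γ 0) with ha
  have hane : a ≠ 0 := by rw [hz]; exact hq
  have ha2 : 0 < a ^ 2 := by positivity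
  set b := η.form (γ 0) (velocity E γ 0) with hb
  refine ⟨(|b| + |C| + 1) / a ^ 2, fun t ht hmem => ?_⟩
  have h2 := hC _ hmem
  rw [Real.norm_eq_abs] at h2
  have h3 := h γ hγ t
  have h2' : |-a ^ 2 * t + b| ≤ C := by
    rw [← h3]
    exact h2
  have h4 : |b| + |C| + 1 ≤ a ^ 2 * |t| := by
    rw [div_le_iff₀ ha2] at ht
    linarith
  have h5 : a ^ 2 * |t| ≤ |-a ^ 2 * t + b| + |b| := by
    have h6 : a ^ 2 * |t| = |-a ^ 2 * t| := by
      rw [abs_mul, abs_neg, abs_of_pos ha2]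
    rw [h6]
    have h7 := abs_sub (-a ^ 2 * t + b) b
    have h8 : -a ^ 2 * t + b - b = -a ^ 2 * t := by ring
    rw [h8] at h7
    exact h7
  have h9 := le_abs_self C
  linarith

/-- an orbit which escapes is not bounded -/
theorem not_bounded_of_escapes (g : SemiRiemannianMetric E M) (hg : g.IsComplete)
    (q : TangentBundle 𝓘(ℝ, E) M) (hq : OrbitEscapes g q) : ¬ g.OrbitBounded q := by
  intro hb
  obtain ⟨γ, hγ, hγ0⟩ := hg q.1 q.2
  obtain ⟨K, hK, hmem⟩ := hb γ hγ hγ0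
  obtain ⟨T, hT⟩ := hq γ hγ hγ0 K hK
  exact hT T (le_abs_self T) (hmem T)

end

variable {a b : ℕ}

theorem source_iff (q₀ q : TangentBundle 𝓘(ℝ, EE a b) (NTMfd a b))
    (hq : q ∈ (extChartAt 𝓘(ℝ, EE a b).tangent q₀).source) :
    q.1 ∈ (chartAt (EE a b) q₀.1).source := by
  rw [extChartAt_source] at hq
  exact (TangentBundle.mem_chart_source_iff q q₀).1 hq

theorem zeta_extChart (q₀ q : TangentBundle 𝓘(ℝ, EE a b) (NTMfd a b))
    (hq : q.1 ∈ (chartAt (EE a b) q₀.1).source) :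
    (zeta (Γ := NT a b) (zl a b) zl_inv).form q.1 q.2 =
      (extChartAt 𝓘(ℝ, EE a b).tangent q₀ q).2.1.2.2 := by
  have he := chart_mem_atlas (EE a b) q₀.1
  rw [form_eq_Hm (zeta (Γ := NT a b) (zl a b) zl_inv) he q hq, Hm_apply, ← triv_eq q₀.1 q hq]
  exact zeta_coeff (zl a b) zl_inv he _ _

theorem null_ker : IsNullSet {q : TangentBundle 𝓘(ℝ, EE a b) (NTMfd a b) |
    (zeta (Γ := NT a b) (zl a b) zl_inv).form q.1 q.2 = 0} := by
  intro q₀
  refine measure_mono_null (t := (univ : Set (EE a b)) ×ˢ {u : EE a b | u.1.2.2 = 0}) ?_ ?_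
  · rintro _ ⟨q, ⟨hq1, hq2⟩, rfl⟩
    refine ⟨mem_univ _, ?_⟩
    rw [mem_setOf_eq, ← zeta_extChart q₀ q (source_iff q₀ q hq2)]
    exact hq1
  · have h1 : {u : EE a b | u.1.2.2 = 0} = (univ ×ˢ (univ ×ˢ {(0 : ℝ)})) ×ˢ univ := by
      ext u
      simp
    rw [h1, Measure.volume_eq_prod, Measure.prod_prod, Measure.volume_eq_prod,
      Measure.prod_prod, Measure.volume_eq_prod, Measure.prod_prod, Measure.volume_eq_prod,
      Measure.prod_prod]
    simp

theorem isOpenPos : (volume : Measure (EE a b × EE a b)).IsOpenPosMeasure := by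
  have h2 : (volume : Measure (ℝ × ℝ × ℝ)).IsOpenPosMeasure := by
    rw [Measure.volume_eq_prod]; infer_instance
  have h3 : (volume : Measure ((Fin a → ℝ) × (Fin b → ℝ))).IsOpenPosMeasure := by
    rw [Measure.volume_eq_prod]; infer_instance
  have h4 : (volume : Measure (EE a b)).IsOpenPosMeasure := by
    rw [Measure.volume_eq_prod]; infer_instance
  rw [Measure.volume_eq_prod]; infer_instance

theorem not_null_univ : ¬ IsNullSet (univ : Set (TangentBundle 𝓘(ℝ, EE a b) (NTMfd a b))) := by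
  intro h
  obtain ⟨x⟩ : Nonempty (NTMfd a b) := inferInstance
  have h1 := h (⟨x, 0⟩ : TangentBundle 𝓘(ℝ, EE a b) (NTMfd a b))
  rw [univ_inter, PartialEquiv.image_source_eq_target] at h1
  have h2 := isOpen_extChartAt_target (I := 𝓘(ℝ, EE a b).tangent)
    (⟨x, 0⟩ : TangentBundle 𝓘(ℝ, EE a b) (NTMfd a b))
  have h3 := mem_extChartAt_target (I := 𝓘(ℝ, EE a b).tangent)
    (⟨x, 0⟩ : TangentBundle 𝓘(ℝ, EE a b) (NTMfd a b))
  have h4 := isOpenPos (a := a) (b := b)
  exact (h2.measure_pos (volume : Measure (EE a b × EE a b)) ⟨_, h3⟩).ne' h1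

theorem null_mono {S T : Set (TangentBundle 𝓘(ℝ, EE a b) (NTMfd a b))} (h : S ⊆ T)
    (hT : IsNullSet T) : IsNullSet S := fun q₀ =>
  measure_mono_null (image_mono (inter_subset_inter_left _ h)) (hT q₀)

theorem main_orb (a b : ℕ) {s : ℝ} (hs : s ≠ 0) :
    (met a b hs).IsComplete ∧
    IsNullSet {q : TangentBundle 𝓘(ℝ, EE a b) (NTMfd a b) | ¬ OrbitEscapes (met a b hs) q} ∧
    IsNullSet {q : TangentBundle 𝓘(ℝ, EE a b) (NTMfd a b) | (met a b hs).OrbitBounded q} ∧
    ¬ IsNullSet {q : TangentBundle 𝓘(ℝ, EE a b) (NTMfd a b) |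
      ¬ (met a b hs).OrbitBounded q} := by
  have hcomp : (met a b hs).IsComplete :=
    flat_complete (BB a b s) (BB_symm s) (BB_nondeg hs) (BB_inv s)
  have hesc : ∀ q : TangentBundle 𝓘(ℝ, EE a b) (NTMfd a b),
      (zeta (Γ := NT a b) (zl a b) zl_inv).form q.1 q.2 ≠ 0 →
        OrbitEscapes (met a b hs) q := fun q hq =>
    escapes_of (met a b hs) (eta (Γ := NT a b) (yl a b) (zl a b) zl_inv yl_inv)
      (zeta (Γ := NT a b) (zl a b) zl_inv)
      (fun γ hγ t => eta_affine (BB a b s) (BB_symm s) (BB_nondeg hs) (BB_inv s) (yl a b)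
        (zl a b) zl_inv yl_inv hγ t) q hq
  have h1 : IsNullSet {q : TangentBundle 𝓘(ℝ, EE a b) (NTMfd a b) |
      ¬ OrbitEscapes (met a b hs) q} := null_mono (fun q hq => by
    by_contra h
    exact hq (hesc q h)) null_ker
  have h2 : IsNullSet {q : TangentBundle 𝓘(ℝ, EE a b) (NTMfd a b) |
      (met a b hs).OrbitBounded q} :=
    null_mono (fun q hq h => not_bounded_of_escapes _ hcomp q h hq) h1
  refine ⟨hcomp, h1, h2, fun h => not_null_univ (a := a) (b := b) fun q₀ => ?_⟩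
  have h3 : (univ : Set (TangentBundle 𝓘(ℝ, EE a b) (NTMfd a b)))
      = {q | (met a b hs).OrbitBounded q} ∪ {q | ¬ (met a b hs).OrbitBounded q} := by
    ext q
    simp [em]
  rw [h3, union_inter_distrib_right, image_union]
  exact measure_union_null (h2 q₀) (h q₀)

end Pool.Agent.Y173.LG
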